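import Pool.Agent.Helper30.TR.Spec

/-!
# Project TR (helper30), part SM (helper6)
-/

set_option autoImplicit false

namespace Pool.Agent.Helper6.TR.SM

open Pool.Agent.Helper30.TR MeasureTheory Set
open scoped Classical

theorem hh_meas (θ : ℝ) : Measurable (hh θ) := by
  unfold hh
  fun_prop

theorem Ds_meas (r : ℝ) : MeasurableSet (Ds r) := by
  unfold Ds
  exact measurableSet_le (by fun_prop) (by fun_prop)

theorem Ds_fin (r : ℝ) (hr : 0 ≤ r) : volume (Ds r) ≠ ⊤ := by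
  have h : Ds r ⊆ Icc (-r) r ×ˢ Icc (-r) r := by
    intro x hx
    have hx' : x.1 ^ 2 + x.2 ^ 2 ≤ r ^ 2 := hx
    have h1 : |x.1| ≤ r := abs_le_of_sq_le_sq (by nlinarith [sq_nonneg x.2]) hr
    have h2 : |x.2| ≤ r := abs_le_of_sq_le_sq (by nlinarith [sq_nonneg x.1]) hr
    exact ⟨⟨(abs_le.1 h1).1, (abs_le.1 h1).2⟩, ⟨(abs_le.1 h2).1, (abs_le.1 h2).2⟩⟩
  have h2 : volume (Icc (-r) r ×ˢ Icc (-r) r : Set (ℝ × ℝ)) ≠ ⊤ :=
    (isCompact_Icc.prod isCompact_Icc).measure_lt_top.ne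
  exact ne_top_of_le_ne_top h2 (measure_mono h)

/-- the numerical inequality -/
theorem numer (p L n s r l D q : ℝ) (hp1 : 3.14 < p) (hp2 : p < 3.15) (hn : 10 ^ 10 ≤ n)
    (hL1 : n / 13 ≤ L) (hL2 : L ≤ n / 12) (hs : s = 2100 / n ^ 2) (hr : r = s * n / p)
    (hl : l = r * L) (hD : D = p / 100) (hq : q = Real.sqrt L) :
    L * (1.02 * r * D + s) + L * (L * (1.02 * r * (1.02 * r * D + s))) +
      5 * s * n / 2 * (1.02 * r * (1 / 5) + 5 * s) * (4 * L * q)
      - 2 * l * (L * (r * D - s)) + l ^ 2 * D ≤ l ^ 2 * (1 / 10 * D) := by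
  have hn0 : (0 : ℝ) < n := by linarith [show (0 : ℝ) < 10 ^ 10 by norm_num]
  have hL0 : (0 : ℝ) < L := lt_of_lt_of_le (by positivity) hL1
  have hp0 : (0 : ℝ) < p := by linarith
  have hs0 : 0 < s := by rw [hs]; positivity
  have hr0 : 0 < r := by rw [hr]; positivity
  have hl0 : 0 < l := by rw [hl]; positivity
  have hsn : s * n = p * r := by rw [hr]; field_simp
  -- lower bound for `l`
  have hl51 : 51 ≤ l := by
    have e : l * (p * n) = 2100 * L := by
      rw [hl, hr, hs]; field_simp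
    have h1 : 2100 * (n / 13) ≤ l * (p * n) := by rw [e]; linarith
    by_contra hc
    have hc' : l < 51 := lt_of_not_ge hc
    have h2 : l * (p * n) ≤ 51 * (3.15 * n) := by
      have : p * n ≤ 3.15 * n := by nlinarith
      calc l * (p * n) ≤ 51 * (p * n) := by
            apply mul_le_mul_of_nonneg_right hc'.le; positivity
        _ ≤ 51 * (3.15 * n) := by linarith
    linarith
  have hl56 : l ≤ 56 := by
    have e : l * (p * n) = 2100 * L := by
      rw [hl, hr, hs]; field_simp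
    have h1 : l * (p * n) ≤ 2100 * (n / 12) := by rw [e]; linarith
    by_contra hc
    have hc' : 56 < l := lt_of_not_ge hc
    have h2 : 56 * (3.14 * n) ≤ l * (p * n) := by
      have : 3.14 * n ≤ p * n := by nlinarith
      calc 56 * (3.14 * n) ≤ 56 * (p * n) := by linarith
        _ ≤ l * (p * n) := by
            apply mul_le_mul_of_nonneg_right hc'.le; positivity
    linarith
  -- `L * s` is small
  have he : L * s ≤ 1 / 10 ^ 7 := by
    have h1 : L * s * n = 2100 * L / n := by rw [hs]; field_simp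
    have h2 : 2100 * L / n ≤ 175 := by
      rw [div_le_iff₀ hn0]; linarith
    have h3 : L * s * 10 ^ 10 ≤ L * s * n := by
      apply mul_le_mul_of_nonneg_left hn; positivity
    have h4 : L * s * 10 ^ 10 ≤ 175 := by linarith
    nlinarith
  have he0 : 0 < L * s := by positivity
  -- `q`
  have hq0 : 0 < q := by rw [hq]; exact Real.sqrt_pos.2 hL0
  have hqq : q * q = L := by rw [hq]; exact Real.mul_self_sqrt hL0.le
  have hq1 : 25000 ≤ q := by
    rw [hq]
    apply Real.le_sqrt_of_sq_le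
    have : (10 : ℝ) ^ 10 / 13 ≤ L := le_trans (by gcongr) hL1
    refine le_trans ?_ this
    norm_num
  -- third term
  have h3 : 5 * s * n / 2 * (1.02 * r * (1 / 5) + 5 * s) * (4 * L * q) ≤
      l ^ 2 * (2.04 * p / 25000) + 50 * p * l * (L * s) := by
    have e1 : 5 * s * n / 2 * (1.02 * r * (1 / 5) + 5 * s) * (4 * L * q) =
        2.04 * p * (r ^ 2 * L * q) + 50 * p * (r * s * L * q) := by
      have : 5 * s * n / 2 = 5 * (p * r) / 2 := by rw [← hsn]; ring
      rw [this]; ring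
    have e2 : r ^ 2 * L * q ≤ l ^ 2 / 25000 := by
      rw [hl, le_div_iff₀ (by norm_num)]
      have : r ^ 2 * L * q * 25000 ≤ r ^ 2 * L * q * q := by
        apply mul_le_mul_of_nonneg_left hq1; positivity
      calc r ^ 2 * L * q * 25000 ≤ r ^ 2 * L * q * q := this
        _ = r ^ 2 * L * (q * q) := by ring
        _ = (r * L) ^ 2 := by rw [hqq]; ring
    have e3 : r * s * L * q ≤ l * (L * s) := by
      have hqL : q ≤ L := by
        have : q * 1 ≤ q * q := by
          apply mul_le_mul_of_nonneg_left _ hq0.le; linarith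
        linarith
      calc r * s * L * q ≤ r * s * L * L := by
            apply mul_le_mul_of_nonneg_left hqL; positivity
        _ = l * (L * s) := by rw [hl]; ring
    rw [e1]
    have f1 : 2.04 * p * (r ^ 2 * L * q) ≤ 2.04 * p * (l ^ 2 / 25000) := by
      apply mul_le_mul_of_nonneg_left e2; positivity
    have f2 : 50 * p * (r * s * L * q) ≤ 50 * p * (l * (L * s)) := by
      apply mul_le_mul_of_nonneg_left e3; positivity
    calc _ ≤ 2.04 * p * (l ^ 2 / 25000) + 50 * p * (l * (L * s)) := by linarith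
      _ = _ := by ring
  have h1 : L * (1.02 * r * D + s) = 1.02 * l * D + L * s := by rw [hl]; ring
  have h2 : L * (L * (1.02 * r * (1.02 * r * D + s))) =
      1.0404 * l ^ 2 * D + 1.02 * l * (L * s) := by rw [hl]; ring
  have h4 : 2 * l * (L * (r * D - s)) = 2 * l ^ 2 * D - 2 * l * (L * s) := by
    have : L * (r * D - s) = l * D - L * s := by rw [hl]; ring
    rw [this]; ring
  rw [h1, h2, h4]
  set e := L * s with hedef
  have hpl : 50 * p * l * e ≤ 50 * 3.15 * 56 * (1 / 10 ^ 7) := by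
    have a1 : 50 * p * l ≤ 50 * 3.15 * 56 := by nlinarith
    exact mul_le_mul a1 he he0.le (by norm_num)
  have hle : l * e ≤ 56 * (1 / 10 ^ 7) := mul_le_mul hl56 he he0.le (by norm_num)
  have hll : 51 * l ≤ l ^ 2 := by nlinarith
  rw [hD]
  have hA : 0 ≤ p * (l ^ 2 - 51 * l) := mul_nonneg hp0.le (by linarith)
  have hB : 3.14 * 51 ≤ p * l := by nlinarith
  nlinarith [hA, hB, hpl, hle, h3, he]

theorem main (hYM : S_YM) (hYU : S_YU) (hYL : S_YL) (hDA : S_DA) (hSU : S_SU) (hSL : S_SL)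
    (hSP : S_SP) (hCB : S_CB) (hHS : S_HS) (hSN : S_SN) : S_SM := by
  refine ⟨10 ^ 10, fun n hn s0 => ?_⟩
  obtain ⟨L, hL⟩ : ∃ L : ℕ, L = n / 12 := ⟨_, rfl⟩
  obtain ⟨σ, hσ⟩ : ∃ σ : ℝ, σ = 2100 / (n : ℝ) ^ 2 := ⟨_, rfl⟩
  rw [← hL, ← hσ]
  have hnR : (10 : ℝ) ^ 10 ≤ n := by exact_mod_cast hn
  have hn0 : (0 : ℝ) < n := by linarith [show (0 : ℝ) < 10 ^ 10 by norm_num]
  have hnN : 0 < n := lt_of_lt_of_le (by norm_num) hn
  have hσ0 : 0 < σ := by rw [hσ]; positivity
  have hσn : σ * n ≤ 1 / 10 := by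
    have : σ * n = 2100 / n := by rw [hσ]; field_simp
    rw [this, div_le_iff₀ hn0]; linarith
  have h100 : 100 ≤ n := le_trans (by norm_num) hn
  have hL2 : (L : ℝ) ≤ n / 12 := by
    rw [hL]; exact Nat.cast_div_le
  have hL1 : (n : ℝ) / 13 ≤ L := by
    have h : n < 12 * (L + 1) := by rw [hL]; omega
    have h' : (n : ℝ) < 12 * (L + 1) := by exact_mod_cast h
    linarith
  have hL0 : (0 : ℝ) < L := lt_of_lt_of_le (by positivity) hL1
  have hπ := Real.pi_pos
  obtain ⟨r, hr⟩ : ∃ r : ℝ, r = σ * n / Real.pi := ⟨_, rfl⟩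
  have hr0 : 0 < r := by rw [hr]; positivity
  obtain ⟨l, hl⟩ : ∃ l : ℝ, l = r * L := ⟨_, rfl⟩
  have hl0 : 0 < l := by rw [hl]; positivity
  obtain ⟨D, hD⟩ : ∃ D : ℝ, D = ar (Ds (1 / 10)) := ⟨_, rfl⟩
  have hD' : D = Real.pi / 100 := by rw [hD, hDA _ (by norm_num)]; ring
  have hD0 : 0 < D := by rw [hD']; positivity
  rw [← hD]
  set S := Finset.Ioc s0 (s0 + (L : ℤ)) with hS
  have hcard : (S.card : ℝ) = L := by
    rw [hS, Int.card_Ioc]; simp
  set B : ℤ → Set (ℝ × ℝ) := fun s => {x | hh (th n s) x ∈ YY n σ s} with hB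
  have hBm : ∀ s, MeasurableSet (B s) := fun s => (hh_meas _) (hYM n σ s)
  have cb := hCB S (Ds (1 / 10)) B l (Ds_meas _) (Ds_fin _ (by norm_num)) (fun s _ => hBm s) hl0.le
  -- single strips
  have hU1 : ∀ s, ar {x | x ∈ Ds (1 / 10) ∧ x ∈ B s} ≤ 1.02 * r * D + σ := by
    intro s
    have h := hSU (th n s) (1.02 * r) (5 * σ) (1 / 10) (YY n σ s) (by positivity) (by positivity)
      (by norm_num) (hYM n σ s) (fun w hw hw' => by
        have := hYU n σ s (-w) w h100 hσ0 hσn (by linarith) (by linarith) hw'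
        rw [← hr] at this
        linarith [this, show 1.02 * r * (w - -w) = 1.02 * r * (2 * w) by ring])
    rw [← hD] at h
    calc _ ≤ 1.02 * r * D + 5 * σ * (2 * (1 / 10)) := h
      _ = _ := by ring
  have hL1' : ∀ s, r * D - σ ≤ ar {x | x ∈ Ds (1 / 10) ∧ x ∈ B s} := by
    intro s
    have h := hSL (th n s) r (5 * σ) (1 / 10) (YY n σ s) (by positivity) (by positivity)
      (by norm_num) (hYM n σ s) (fun w hw hw' => by
        have := hYL n σ s (-w) w h100 hσ0 hσn (by linarith) (by linarith) hw'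
        rw [← hr] at this
        linarith [this, show r * (w - -w) = r * (2 * w) by ring])
    rw [← hD] at h
    calc _ = r * D - 5 * σ * (2 * (1 / 10)) := by ring
      _ ≤ _ := h
  have hU0 : 0 ≤ 1.02 * r * D + σ := by positivity
  -- two strips
  have hU2 : ∀ s ∈ S, ∀ s' ∈ S, s' ≠ s →
      ar {x | x ∈ Ds (1 / 10) ∧ x ∈ B s ∧ x ∈ B s'} ≤ 1.02 * r * (1.02 * r * D + σ) +
        5 * σ * n / 2 * (1.02 * r * (1 / 5) + 5 * σ) * (1 / |((s' : ℝ) - s)|) := by
    intro s hs s' hs' hne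
    have hlt : 2 * |s' - s| ≤ n := by
      rw [hS, Finset.mem_Ioc] at hs hs'
      have h1 : |s' - s| ≤ L := abs_le.2 ⟨by omega, by omega⟩
      have h2 : 12 * L ≤ n := by rw [hL]; omega
      have h3 : (12 : ℤ) * L ≤ n := by exact_mod_cast h2
      have h4 : (0 : ℤ) ≤ L := by positivity
      omega
    have hsin := hSN n s s' hnN hlt
    have hd0 : 0 < |((s' : ℝ) - s)| := by
      apply abs_pos.2
      intro h
      apply hne
      have : (s' : ℝ) = s := by linarith
      exact_mod_cast this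
    have hsp : 0 < |Real.sin (th n s' - th n s)| := lt_of_lt_of_le (by positivity) hsin
    have h := hSP (th n s) (th n s') (1.02 * r) (5 * σ) (1 / 10) (YY n σ s) (YY n σ s')
      (by positivity) (by positivity) (by norm_num) (hYM n σ s) (hYM n σ s') (abs_pos.1 hsp)
      (fun y1 y2 h1 h2 h3 => by
        have := hYU n σ s' y1 y2 h100 hσ0 hσn (by linarith) h2 h3
        rw [← hr] at this
        exact this)
    have hY := hYU n σ s (-(1 / 10)) (1 / 10) h100 hσ0 hσn (by norm_num) (by norm_num) (by norm_num)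
    rw [← hr] at hY
    have hY' : len (YY n σ s ∩ Icc (-(1 / 10)) (1 / 10)) ≤ 1.02 * r * (1 / 5) + 5 * σ := by
      refine le_trans hY ?_
      norm_num
    have hq : 5 * σ / |Real.sin (th n s' - th n s)| ≤ 5 * σ * n / 2 * (1 / |((s' : ℝ) - s)|) := by
      rw [div_le_iff₀ hsp]
      calc 5 * σ = 5 * σ * n / 2 * (1 / |((s' : ℝ) - s)|) * (2 * |((s' : ℝ) - s)| / n) := by
            field_simp
        _ ≤ _ := by
            apply mul_le_mul_of_nonneg_left hsin; positivity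
    have hlen0 : 0 ≤ len (YY n σ s ∩ Icc (-(1 / 10)) (1 / 10)) := ENNReal.toReal_nonneg
    calc _ ≤ _ := h
      _ ≤ 1.02 * r * (1.02 * r * D + σ) +
        (5 * σ * n / 2 * (1 / |((s' : ℝ) - s)|)) * (1.02 * r * (1 / 5) + 5 * σ) := by
          apply add_le_add
          · exact mul_le_mul_of_nonneg_left (hU1 s) (by positivity)
          · exact mul_le_mul hq hY' hlen0 (by positivity)
      _ = _ := by ring
  -- sums
  have hT1 : ∑ s ∈ S, ar {x | x ∈ Ds (1 / 10) ∧ x ∈ B s} ≥ L * (r * D - σ) := by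
    have := Finset.card_nsmul_le_sum S (fun s => ar {x | x ∈ Ds (1 / 10) ∧ x ∈ B s}) (r * D - σ)
      (fun s _ => hL1' s)
    rw [nsmul_eq_mul, hcard] at this
    exact this
  have hT2 : ∑ s ∈ S, ∑ s' ∈ S, ar {x | x ∈ Ds (1 / 10) ∧ x ∈ B s ∧ x ∈ B s'} ≤
      L * (1.02 * r * D + σ) + L * (L * (1.02 * r * (1.02 * r * D + σ))) +
      5 * σ * n / 2 * (1.02 * r * (1 / 5) + 5 * σ) * (4 * L * Real.sqrt L) := by
    have e : ∀ s ∈ S, ∑ s' ∈ S, ar {x | x ∈ Ds (1 / 10) ∧ x ∈ B s ∧ x ∈ B s'} ≤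
        (1.02 * r * D + σ) + L * (1.02 * r * (1.02 * r * D + σ)) +
        5 * σ * n / 2 * (1.02 * r * (1 / 5) + 5 * σ) *
          ∑ s' ∈ S.filter (fun s' => s' ≠ s), 1 / |((s' : ℝ) - s)| := by
      intro s hs
      have hsplit : ∑ s' ∈ S, ar {x | x ∈ Ds (1 / 10) ∧ x ∈ B s ∧ x ∈ B s'} =
          ar {x | x ∈ Ds (1 / 10) ∧ x ∈ B s ∧ x ∈ B s} +
          ∑ s' ∈ S.filter (fun s' => s' ≠ s), ar {x | x ∈ Ds (1 / 10) ∧ x ∈ B s ∧ x ∈ B s'} := by
        have : S.filter (fun s' => s' ≠ s) = S.erase s := by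
          ext a; simp [and_comm]
        rw [this]
        exact (Finset.add_sum_erase S
          (fun s' => ar {x | x ∈ Ds (1 / 10) ∧ x ∈ B s ∧ x ∈ B s'}) hs).symm
      rw [hsplit]
      have e1 : ar {x | x ∈ Ds (1 / 10) ∧ x ∈ B s ∧ x ∈ B s} ≤ 1.02 * r * D + σ := by
        have : {x | x ∈ Ds (1 / 10) ∧ x ∈ B s ∧ x ∈ B s} = {x | x ∈ Ds (1 / 10) ∧ x ∈ B s} := by
          ext x; simp
        rw [this]; exact hU1 s
      have e2 : ∑ s' ∈ S.filter (fun s' => s' ≠ s),
          ar {x | x ∈ Ds (1 / 10) ∧ x ∈ B s ∧ x ∈ B s'} ≤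
          ∑ s' ∈ S.filter (fun s' => s' ≠ s), (1.02 * r * (1.02 * r * D + σ) +
            5 * σ * n / 2 * (1.02 * r * (1 / 5) + 5 * σ) * (1 / |((s' : ℝ) - s)|)) := by
        apply Finset.sum_le_sum
        intro s' hs'
        rw [Finset.mem_filter] at hs'
        exact hU2 s hs s' hs'.1 hs'.2
      rw [Finset.sum_add_distrib, Finset.sum_const, nsmul_eq_mul, ← Finset.mul_sum] at e2
      have e3 : ((S.filter (fun s' => s' ≠ s)).card : ℝ) ≤ L := by
        rw [← hcard]
        exact_mod_cast Finset.card_filter_le _ _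
      have e4 : ((S.filter (fun s' => s' ≠ s)).card : ℝ) * (1.02 * r * (1.02 * r * D + σ)) ≤
          L * (1.02 * r * (1.02 * r * D + σ)) := by
        apply mul_le_mul_of_nonneg_right e3; positivity
      linarith
    refine le_trans (Finset.sum_le_sum e) ?_
    rw [Finset.sum_add_distrib, Finset.sum_add_distrib, Finset.sum_const, Finset.sum_const,
      nsmul_eq_mul, nsmul_eq_mul, hcard, ← Finset.mul_sum]
    have := hHS L s0
    rw [← hS] at this
    have h5 : 5 * σ * n / 2 * (1.02 * r * (1 / 5) + 5 * σ) *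
        ∑ s ∈ S, ∑ s' ∈ S.filter (fun s' => s' ≠ s), 1 / |((s' : ℝ) - s)| ≤
        5 * σ * n / 2 * (1.02 * r * (1 / 5) + 5 * σ) * (4 * L * Real.sqrt L) := by
      apply mul_le_mul_of_nonneg_left this; positivity
    linarith
  have hnum := numer Real.pi L n σ r l D (Real.sqrt L) Real.pi_gt_d2 Real.pi_lt_d2 hnR hL1 hL2
    hσ hr hl hD' rfl
  have hfin : l ^ 2 * ar {x | x ∈ Ds (1 / 10) ∧ ∀ s ∈ S, x ∉ B s} ≤ l ^ 2 * (1 / 10 * D) := by
    refine le_trans cb ?_
    rw [← hD]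
    have h6 : 2 * l * (L * (r * D - σ)) ≤
        2 * l * ∑ s ∈ S, ar {x | x ∈ Ds (1 / 10) ∧ x ∈ B s} := by
      apply mul_le_mul_of_nonneg_left hT1; positivity
    linarith
  exact le_of_mul_le_mul_left hfin (by positivity)

end Pool.Agent.Helper6.TR.SM
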