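import Pool.Agent.Helper30.TR.Spec

/-!
# Project TR (helper30), part YL (helper6)
-/

set_option autoImplicit false

namespace Pool.Agent.Helper6.TR.YL

open Pool.Agent.Helper30.TR MeasureTheory Set
open scoped Classical

/-- cosines near to `0` are separated -/
theorem sep (n : ℕ) (hn : 100 ≤ n) (A B : ℝ) (hA : 0 ≤ A) (hAB : A + 2 * Real.pi / n ≤ B)
    (hB : B ≤ Real.pi) (hcA : |Real.cos A| ≤ 1 / 10) (hcB : |Real.cos B| ≤ 1 / 10) :
    3 / (n : ℝ) ≤ Real.cos A - Real.cos B := by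
  have hn0 : (0 : ℝ) < n := by exact_mod_cast (lt_of_lt_of_le (by norm_num) hn)
  have hπ := Real.pi_pos
  have hd : 0 < 2 * Real.pi / n := by positivity
  have hs : ∀ t, 0 ≤ t → t ≤ Real.pi → |Real.cos t| ≤ 1 / 10 → 0.99 ≤ Real.sin t := by
    intro t h0 h1 hc
    have h2 := Real.sin_sq_add_cos_sq t
    have h3 : 0 ≤ Real.sin t := Real.sin_nonneg_of_nonneg_of_le_pi h0 h1
    have h4 := Real.sin_le_one t
    have h5 : Real.cos t ^ 2 ≤ 1 / 100 := by
      rw [← sq_abs]; nlinarith [abs_nonneg (Real.cos t)]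
    nlinarith
  have hsA := hs A hA (by linarith) hcA
  have hsB := hs B (by linarith) hB hcB
  have hm0 : 0 ≤ Real.sin ((A + B) / 2) :=
    Real.sin_nonneg_of_nonneg_of_le_pi (by linarith) (by linarith)
  have hmid : 0.99 ≤ Real.sin ((A + B) / 2) := by
    have h1 : Real.sin A + Real.sin B = 2 * Real.sin ((A + B) / 2) * Real.cos ((A - B) / 2) := by
      rw [Real.sin_add_sin]
    have h2 := Real.cos_le_one ((A - B) / 2)
    nlinarith
  have hdiff : 2 / (n : ℝ) ≤ Real.sin ((B - A) / 2) := by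
    have h := Real.mul_le_sin (x := (B - A) / 2) (by linarith) (by linarith)
    refine le_trans ?_ h
    have : Real.pi / n ≤ (B - A) / 2 := by
      have : 2 * Real.pi / n = 2 * (Real.pi / n) := by ring
      linarith
    calc 2 / (n : ℝ) = 2 / Real.pi * (Real.pi / n) := by field_simp
      _ ≤ _ := by apply mul_le_mul_of_nonneg_left this; positivity
  have hform : Real.cos A - Real.cos B = 2 * Real.sin ((A + B) / 2) * Real.sin ((B - A) / 2) := by
    rw [Real.cos_sub_cos]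
    have : Real.sin ((A - B) / 2) = - Real.sin ((B - A) / 2) := by
      rw [← Real.sin_neg]; congr 1; ring
    rw [this]; ring
  rw [hform]
  have h2n : 0 < 2 / (n : ℝ) := by positivity
  calc 3 / (n : ℝ) ≤ 2 * 0.99 * (2 / n) := by
        rw [div_eq_mul_one_div, show 2 * 0.99 * (2 / (n : ℝ)) = 3.96 * (1 / n) by ring]
        have : 0 < 1 / (n : ℝ) := by positivity
        nlinarith
    _ ≤ 2 * Real.sin ((A + B) / 2) * Real.sin ((B - A) / 2) := by
        apply mul_le_mul _ hdiff h2n.le (by positivity)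
        linarith

theorem main : S_YL := by
  intro n σ s y1 y2 hn hσ hσn h1 h12 h2
  have hn0 : (0 : ℝ) < n := by exact_mod_cast (lt_of_lt_of_le (by norm_num) hn)
  have hnR : (100 : ℝ) ≤ n := by exact_mod_cast hn
  have hπ := Real.pi_pos
  have hπ3 := Real.pi_gt_three
  have hlen0 : 0 ≤ len (YY n σ s ∩ Icc y1 y2) := ENNReal.toReal_nonneg
  have hρ : σ * n / Real.pi ≤ 1 / 30 := by
    rw [div_le_iff₀ hπ]; linarith
  have hρ0 : 0 ≤ σ * n / Real.pi := by positivity
  rcases lt_or_ge (y2 - y1) (2 * σ) with hsm | hbig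
  · refine le_trans ?_ hlen0
    have : σ * n / Real.pi * (y2 - y1) ≤ 1 / 30 * (2 * σ) :=
      mul_le_mul hρ hsm.le (by linarith) (by norm_num)
    linarith
  have hσ1 : σ ≤ 1 / 1000 := by
    by_contra hc
    have hc' : 1 / 1000 < σ := lt_of_not_ge hc
    nlinarith
  obtain ⟨a, ha⟩ : ∃ a, a = y1 + σ := ⟨_, rfl⟩
  obtain ⟨b, hb⟩ : ∃ b, b = y2 - σ := ⟨_, rfl⟩
  have hab : a ≤ b := by rw [ha, hb]; linarith
  have ha1 : -(1 / 10) ≤ a := by rw [ha]; linarith
  have hb1 : b ≤ 1 / 10 := by rw [hb]; linarith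
  obtain ⟨lo, hlo⟩ : ∃ lo, lo = n * Real.arccos b / Real.pi := ⟨_, rfl⟩
  obtain ⟨hi, hhi⟩ : ∃ hi, hi = n * Real.arccos a / Real.pi := ⟨_, rfl⟩
  have hlohi : n * (b - a) / Real.pi ≤ hi - lo := by
    have h : b - a ≤ Real.arccos a - Real.arccos b := by
      have h3 : Real.arccos b ≤ Real.arccos a := Real.arccos_le_arccos hab
      have h4 := Real.abs_cos_sub_cos_le (Real.arccos b) (Real.arccos a)
      rw [Real.cos_arccos (by linarith) (by linarith), Real.cos_arccos (by linarith) (by linarith),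
        abs_of_nonneg (by linarith), abs_of_nonpos (by linarith)] at h4
      linarith
    rw [hhi, hlo, ← sub_div, ← mul_sub]
    gcongr
  obtain ⟨J, hJ⟩ : ∃ J : Finset ℤ, J = Finset.Icc ⌈(lo - s) / 2⌉ ⌊(hi - s) / 2⌋ := ⟨_, rfl⟩
  have hcard : (hi - lo) / 2 - 1 ≤ J.card := by
    rw [hJ, Int.card_Icc]
    have e1 := Int.lt_floor_add_one ((hi - s) / 2)
    have e2 := Int.ceil_lt_add_one ((lo - s) / 2)
    have e3 : ((⌊(hi - s) / 2⌋ + 1 - ⌈(lo - s) / 2⌉ : ℤ) : ℝ) ≤
        ((⌊(hi - s) / 2⌋ + 1 - ⌈(lo - s) / 2⌉).toNat : ℝ) := by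
      exact_mod_cast Int.self_le_toNat _
    refine le_trans ?_ e3
    push_cast
    linarith
  obtain ⟨c, hc⟩ : ∃ c : ℤ → ℝ, ∀ j, c j = Real.cos (Real.pi * ((s + 2 * j : ℤ) : ℝ) / n) :=
    ⟨_, fun j => rfl⟩
  have hm : ∀ j ∈ J, 0 < s + 2 * j ∧ s + 2 * j < n ∧ a ≤ c j ∧ c j ≤ b ∧
      0 ≤ Real.pi * ((s + 2 * j : ℤ) : ℝ) / n ∧ Real.pi * ((s + 2 * j : ℤ) : ℝ) / n ≤ Real.pi := by
    intro j hj
    rw [hJ, Finset.mem_Icc, Int.ceil_le, Int.le_floor] at hj
    have g1 : lo ≤ ((s + 2 * j : ℤ) : ℝ) := by push_cast; linarith [hj.1]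
    have g2 : ((s + 2 * j : ℤ) : ℝ) ≤ hi := by push_cast; linarith [hj.2]
    have k1 : Real.arccos b ≤ Real.pi * ((s + 2 * j : ℤ) : ℝ) / n := by
      rw [le_div_iff₀ hn0]
      rw [hlo, div_le_iff₀ hπ] at g1
      linarith
    have k2 : Real.pi * ((s + 2 * j : ℤ) : ℝ) / n ≤ Real.arccos a := by
      rw [div_le_iff₀ hn0]
      rw [hhi, le_div_iff₀ hπ] at g2
      linarith
    have k3 : 0 < Real.arccos b := Real.arccos_pos.2 (by linarith)
    have k4 : Real.arccos a < Real.pi := by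
      refine lt_of_le_of_ne (Real.arccos_le_pi a) ?_
      intro h
      rw [Real.arccos_eq_pi] at h
      linarith
    refine ⟨?_, ?_, ?_, ?_, by linarith, by linarith⟩
    · have : 0 < Real.pi * ((s + 2 * j : ℤ) : ℝ) / n := by linarith
      rw [div_pos_iff_of_pos_right hn0, mul_pos_iff_of_pos_left hπ] at this
      exact_mod_cast this
    · have : Real.pi * ((s + 2 * j : ℤ) : ℝ) / n < Real.pi := by linarith
      rw [div_lt_iff₀ hn0, mul_lt_mul_iff_right₀ hπ] at this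
      exact_mod_cast this
    · rw [hc]
      have := Real.cos_le_cos_of_nonneg_of_le_pi (by linarith) (Real.arccos_le_pi a) k2
      rw [Real.cos_arccos (by linarith) (by linarith)] at this
      exact this
    · rw [hc]
      have := Real.cos_le_cos_of_nonneg_of_le_pi k3.le (by linarith) k1
      rw [Real.cos_arccos (by linarith) (by linarith)] at this
      exact this
  -- disjointness
  have hlt : ∀ j ∈ J, ∀ j' ∈ J, j < j' → c j' + 2 * σ < c j := by
    intro j hj j' hj' hjj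
    obtain ⟨p1, p2, p3, p4, p5, p6⟩ := hm j hj
    obtain ⟨q1, q2, q3, q4, q5, q6⟩ := hm j' hj'
    have := sep n hn (Real.pi * ((s + 2 * j : ℤ) : ℝ) / n)
      (Real.pi * ((s + 2 * j' : ℤ) : ℝ) / n) p5 (by
      have h3 : ((s + 2 * j : ℤ) : ℝ) + 2 ≤ ((s + 2 * j' : ℤ) : ℝ) := by
        have : s + 2 * j + 2 ≤ s + 2 * j' := by omega
        exact_mod_cast this
      calc Real.pi * ((s + 2 * j : ℤ) : ℝ) / n + 2 * Real.pi / n
          = Real.pi * (((s + 2 * j : ℤ) : ℝ) + 2) / n := by ring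
        _ ≤ _ := by gcongr) q6
      (by rw [← hc]; exact abs_le.2 ⟨by linarith, by linarith⟩)
      (by rw [← hc]; exact abs_le.2 ⟨by linarith, by linarith⟩)
    rw [← hc, ← hc] at this
    have h4 : 2 * σ < 3 / n := by
      rw [lt_div_iff₀ hn0]; linarith
    linarith
  have hdisj : (J : Set ℤ).PairwiseDisjoint (fun j => Icc (c j - σ) (c j + σ)) := by
    intro j hj j' hj' hne
    rw [Function.onFun, Set.disjoint_left]
    intro x hx hx'
    rcases lt_or_gt_of_ne hne with h | h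
    · have := hlt j hj j' hj' h
      linarith [hx.1, hx'.2]
    · have := hlt j' hj' j hj h
      linarith [hx.2, hx'.1]
  have hvol : volume (⋃ j ∈ J, Icc (c j - σ) (c j + σ)) = ENNReal.ofReal (J.card * (2 * σ)) := by
    rw [measure_biUnion_finset hdisj (fun j _ => measurableSet_Icc)]
    simp only [Real.volume_Icc]
    rw [Finset.sum_congr rfl (fun j _ => by
      rw [show c j + σ - (c j - σ) = 2 * σ by ring]), Finset.sum_const, nsmul_eq_mul,
      ENNReal.ofReal_mul (p := (J.card : ℝ)) (by positivity), ENNReal.ofReal_natCast]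
  have hsub : (⋃ j ∈ J, Icc (c j - σ) (c j + σ)) ⊆ YY n σ s ∩ Icc y1 y2 := by
    intro x hx
    simp only [mem_iUnion] at hx
    obtain ⟨j, hj, hx⟩ := hx
    obtain ⟨p1, p2, p3, p4, p5, p6⟩ := hm j hj
    refine ⟨⟨s + 2 * j, p1, p2, ⟨j, by ring⟩, ?_⟩, ?_, ?_⟩
    · rw [← hc]
      exact abs_le.2 ⟨by linarith [hx.1], by linarith [hx.2]⟩
    · have := hx.1; rw [ha] at p3; linarith
    · have := hx.2; rw [hb] at p4; linarith
  have hle : (J.card : ℝ) * (2 * σ) ≤ len (YY n σ s ∩ Icc y1 y2) := by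
    unfold len
    rw [← ENNReal.ofReal_le_iff_le_toReal
      (ne_top_of_le_ne_top (by rw [Real.volume_Icc]; exact ENNReal.ofReal_ne_top)
        (measure_mono (inter_subset_right : YY n σ s ∩ Icc y1 y2 ⊆ Icc y1 y2))), ← hvol]
    exact measure_mono hsub
  refine le_trans ?_ hle
  have h5 : ((hi - lo) / 2 - 1) * (2 * σ) ≤ (J.card : ℝ) * (2 * σ) := by
    apply mul_le_mul_of_nonneg_right hcard; positivity
  refine le_trans ?_ h5
  have h6 : (n * (b - a) / Real.pi) * σ ≤ (hi - lo) * σ :=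
    mul_le_mul_of_nonneg_right hlohi hσ.le
  have h7 : (n * (b - a) / Real.pi) * σ = σ * n / Real.pi * (y2 - y1) -
      σ * n / Real.pi * (2 * σ) := by rw [ha, hb]; ring
  have h8 : σ * n / Real.pi * (2 * σ) ≤ 1 / 30 * (2 * σ) :=
    mul_le_mul_of_nonneg_right hρ (by positivity)
  nlinarith

end Pool.Agent.Helper6.TR.YL
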